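import Pool.Agent.PFD.StmtsD5a
import Pool.Agent.Helper76_PFC.LSE
import Pool.Agent.Helper91_PFC.LSF

/-!
# Squad PFD, block D5, row LSG: the number of simple modules of a full corner
-/

open scoped BigOperators

noncomputable section

namespace Pool.Agent.PFD.H29

open Pool.Agent.Helper51_AWC Pool.Agent.Helper79_WRA Pool.Agent.PP
open Pool.Agent.PFC Pool.Agent.PFD

section rep

variable {F G : Type} [Field F] [Group G] [Finite G]

theorem ev_add {n : ℕ} (σ : G →* Matrix (Fin n) (Fin n) F) (a b : G → F) :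
    ev σ (a + b) = ev σ a + ev σ b := by
  rw [← PP.H20.lift_toMA, ← PP.H20.lift_toMA, ← PP.H20.lift_toMA, PP.H20.toMA_add, map_add]

theorem ev_smul {n : ℕ} (σ : G →* Matrix (Fin n) (Fin n) F) (c : F) (a : G → F) :
    ev σ (c • a) = c • ev σ a := by
  rw [← PP.H20.lift_toMA, ← PP.H20.lift_toMA, PP.H20.toMA_smul, map_smul]

theorem ev_zero {n : ℕ} (σ : G →* Matrix (Fin n) (Fin n) F) : ev σ (0 : G → F) = 0 := by
  have h := ev_smul σ (0 : F) (0 : G → F)
  rw [zero_smul, zero_smul] at h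
  exact h

/-- a representation which does not vanish at `j` gives a kernel -/
theorem ker_mem {n : ℕ} (σ : G →* Matrix (Fin n) (Fin n) F) (hσ : IsIrr σ) {j : G → F}
    (hj : mulF j j = j) (h0 : ev σ j ≠ 0) :
    {a : Crn hj | ev σ (cv a) = 0} ∈ kers F (Crn hj) := by
  obtain ⟨r, U, V, hr, hVU, hUV⟩ := PFC.H91.idem_factor (ev σ j)
    (by rw [← PP.H20.ev_mulF, hj]) h0
  have hl : ∀ a : Crn hj, V * U * ev σ (cv a) = ev σ (cv a) := by
    intro a
    rw [hVU, ← PP.H20.ev_mulF, cv_l]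
  have hr' : ∀ a : Crn hj, ev σ (cv a) * (V * U) = ev σ (cv a) := by
    intro a
    rw [hVU, ← PP.H20.ev_mulF, cv_r]
  let g : Crn hj →ₗ[F] Matrix (Fin r) (Fin r) F :=
    { toFun := fun y => U * ev σ (cv y) * V
      map_add' := fun y y' => by
        rw [cv_add, ev_add, Matrix.mul_add, Matrix.add_mul]
      map_smul' := fun c y => by
        rw [cv_smul, ev_smul, Matrix.mul_smul, Matrix.smul_mul, RingHom.id_apply] }
  have hg : ∀ y, g y = U * ev σ (cv y) * V := fun _ => rfl
  have hg1 : g 1 = 1 := by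
    rw [hg, cv_one, ← hVU, ← Matrix.mul_assoc, hUV, Matrix.one_mul, hUV]
  have hgm : ∀ y y', g (y * y') = g y * g y' := by
    intro y y'
    rw [hg, hg, hg, cv_mul, PP.H20.ev_mulF]
    calc U * (ev σ (cv y) * ev σ (cv y')) * V
        = U * ((ev σ (cv y) * (V * U)) * ev σ (cv y')) * V := by rw [hr']
      _ = U * ev σ (cv y) * V * (U * ev σ (cv y') * V) := by simp only [Matrix.mul_assoc]
  refine ⟨r, AlgHom.ofLinearMap g hg1 hgm, hr, ?_, ?_⟩
  · intro T
    obtain ⟨x, hx⟩ := (PP.H20.lift_surjective σ).2 hσ.2 (V * T * U)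
    obtain ⟨a, rfl⟩ := PP.H20.toMA_surjective x
    rw [PP.H20.lift_toMA] at hx
    refine ⟨mkj hj a, ?_⟩
    change g (mkj hj a) = T
    rw [hg, cv_mkj, PP.H20.ev_mulF, PP.H20.ev_mulF, hx, ← hVU]
    calc U * (V * U * (V * T * U * (V * U))) * V
        = (U * V) * (U * V) * T * (U * V) * (U * V) := by simp only [Matrix.mul_assoc]
      _ = T := by simp only [hUV, Matrix.one_mul, Matrix.mul_one]
  · ext a
    change ev σ (cv a) = 0 ↔ g a = 0
    rw [hg]
    constructor
    · intro h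
      rw [h, Matrix.mul_zero, Matrix.zero_mul]
    · intro h
      rw [← hl a, ← hr' a]
      calc V * U * (ev σ (cv a) * (V * U)) = V * (U * ev σ (cv a) * V) * U := by
            simp only [Matrix.mul_assoc]
        _ = 0 := by rw [h, Matrix.mul_zero, Matrix.zero_mul]

end rep

/-- LSG -/
theorem lsg : LsgStmt := by
  intro ℓ F _ hF G _ _ e j he hej hj hspan
  apply le_antisymm (PFC.H76.lse ℓ F hF G e j he hej hj)
  have : FiniteDimensional F (Crn hj) := inferInstanceAs (FiniteDimensional F (CnS j))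
  have hch : ∀ f : G → F, f ∈ IBr F G → ∃ (n : ℕ) (ρ : G →* Matrix (Fin n) (Fin n) F),
    IsIrr ρ ∧ f = tr ρ := fun f h => h
  choose! n ρ hirr htr using hch
  -- `e` acts as one
  have he1 : ∀ f ∈ IBr F G, actF e f = f → ev (ρ f) e = 1 := by
    intro f hf hact
    obtain ⟨w, h1, h2, h3⟩ := PP.H20.eig F G _ (ρ f) (hirr f hf) e he.1
    rcases h3 he with h | h
    · exfalso
      rw [← htr f hf, hact, h, zero_smul] at h2
      exact (PP.H20.ibf ℓ F hF G).2.ne_zero (⟨f, hf⟩ : IBr F G) h2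
    · rw [h1, h, map_one]
  have hj0 : ∀ f ∈ IBr F G, actF e f = f → ev (ρ f) j ≠ 0 := by
    intro f hf hact h0
    have h1 : ∀ x ∈ Submodule.span F {x : G → F | ∃ a b, x = mulF a (mulF j b)},
        ev (ρ f) x = 0 := by
      intro x hx
      induction hx using Submodule.span_induction with
      | mem x hx =>
        obtain ⟨a, b, rfl⟩ := hx
        rw [PP.H20.ev_mulF, PP.H20.ev_mulF, h0, zero_mul, mul_zero]
      | zero => exact ev_zero _
      | add x y _ _ hx hy => rw [ev_add, hx, hy, add_zero]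
      | smul c x _ hx => rw [ev_smul, hx, smul_zero]
    have h2 := h1 e hspan
    rw [he1 f hf hact] at h2
    have : Nonempty (Fin (n f)) := ⟨⟨0, (hirr f hf).1⟩⟩
    exact one_ne_zero h2
  unfold ls
  unfold Pool.Agent.PP.T3.ln
  refine Set.ncard_le_ncard_of_injOn (fun f => {a : Crn hj | ev (ρ f) (cv a) = 0}) ?_ ?_
    (PFC.H91.kers_finite F (Crn hj))
  · rintro f ⟨hf, hact⟩
    exact ker_mem (ρ f) (hirr f hf) hj (hj0 f hf hact)
  · rintro f ⟨hf, hact⟩ f' ⟨hf', hact'⟩ hff
    by_contra hne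
    have hff' : {a : Crn hj | ev (ρ f) (cv a) = 0} = {a : Crn hj | ev (ρ f') (cv a) = 0} := hff
    obtain ⟨a, ha⟩ := PP.H20.ibj ℓ F hF G Bool (fun b => n (bif b then f else f'))
      (fun b => ρ (bif b then f else f'))
      (fun b => by cases b; exacts [hirr f' hf', hirr f hf])
      (fun b b' hbb => by
        have h1 : tr (ρ f) = f := (htr f hf).symm
        have h2 : tr (ρ f') = f' := (htr f' hf').symm
        cases b <;> cases b'
        · rfl
        · exact absurd (h2.symm.trans ((show tr (ρ f') = tr (ρ f) from hbb).trans h1)).symm hne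
        · exact absurd (h1.symm.trans ((show tr (ρ f) = tr (ρ f') from hbb).trans h2)) hne
        · rfl)
      (fun b => if b then 1 else 0)
    have ha1 : ev (ρ f) a = 1 := ha true
    have ha2 : ev (ρ f') a = 0 := ha false
    have h3 : mkj hj a ∈ {a : Crn hj | ev (ρ f') (cv a) = 0} := by
      change ev (ρ f') (cv (mkj hj a)) = 0
      rw [cv_mkj, PP.H20.ev_mulF, PP.H20.ev_mulF, ha2, zero_mul, mul_zero]
    rw [← hff'] at h3
    have h4 : ev (ρ f) (cv (mkj hj a)) = 0 := h3
    rw [cv_mkj, PP.H20.ev_mulF, PP.H20.ev_mulF, ha1, one_mul, ← PP.H20.ev_mulF, hj] at h4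
    exact hj0 f hf hact h4

end Pool.Agent.PFD.H29
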