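import Pool.Agent.PFD.StmtsD2c

/-!
# Squad PFD, part D2b, row SPX: a `WFr` makes the complement of `Γ` in `A` a retract of `X`
-/

open scoped BigOperators

noncomputable section

namespace Pool.Agent.PFD.D2b.H29

open MulOpposite
open Pool.Agent.PFC.B1 (BiM FS Sep)
open Pool.Agent.PFD.D2 Pool.Agent.PFD.D2b

section
variable {R Γ W I A Ω : Type} [CommRing R] [Ring Γ] [Algebra R Γ] [CommGroup W] [Fintype W]
    [Fintype I] [Ring A] [Algebra R A]

/-- `A` as a bimodule over `Γ` -/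
def bim (j : Γ →ₐ[R] A) : BiM R Γ A where
  lm := (Algebra.lmul R A).comp j
  rm := (regB R A).rm.comp (AlgHom.op j)
  comm := fun a b x => by
    show j a * (x * j b.unop) = j a * x * j b.unop
    rw [mul_assoc]

theorem bim_lm (j : Γ →ₐ[R] A) (γ : Γ) (a : A) : (bim j).lm γ a = j γ * a := rfl

theorem bim_rm (j : Γ →ₐ[R] A) (γ : Γ) (a : A) : (bim j).rm (op γ) a = a * j γ := rfl

/-- `y ↦ ∑ τ (j y * a * j b_t) • b'_t` -/
def EL (D : WFS R Γ W I) (j : Γ →ₐ[R] A) (τ : A →ₗ[R] R) (a : A) : Γ →ₗ[R] Γ where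
  toFun y := ∑ k, ∑ w, τ (j y * a * j (D.cf k * D.om w)) • (D.om w⁻¹ * D.cf' k)
  map_add' y y' := by
    simp only [map_add, add_mul, add_smul, Finset.sum_add_distrib]
  map_smul' c y := by
    simp only [map_smul, smul_mul_assoc, smul_eq_mul, mul_smul, RingHom.id_apply,
      ← Finset.smul_sum]

theorem EL_apply (D : WFS R Γ W I) (j : Γ →ₐ[R] A) (τ : A →ₗ[R] R) (a : A) (y : Γ) :
    EL D j τ a y = ∑ k, ∑ w, τ (j y * a * j (D.cf k * D.om w)) • (D.om w⁻¹ * D.cf' k) := rfl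

theorem EL_l (D : WFS R Γ W I) (j : Γ →ₐ[R] A) (τ : A →ₗ[R] R) (a : A) (y γ : Γ) :
    EL D j τ (j γ * a) y = EL D j τ a (y * γ) := by
  rw [EL_apply, EL_apply]
  simp only [map_mul, mul_assoc]

theorem EL_r (hc : Pool.Agent.PFC.B1.CasStmt) (D : WFS R Γ W I) (j : Γ →ₐ[R] A) (τ : A →ₗ[R] R)
    (a : A) (y γ : Γ) : EL D j τ (a * j γ) y = EL D j τ a y * γ := by
  let B : Γ →ₗ[R] Γ →ₗ[R] Γ :=
    LinearMap.mk₂ R (fun u v => τ (j y * a * j u) • v)
      (fun u u' v => by rw [map_add, mul_add, map_add, add_smul])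
      (fun c u v => by rw [map_smul, mul_smul_comm, map_smul, smul_eq_mul, mul_smul])
      (fun u v v' => by rw [smul_add])
      (fun c u v => by rw [smul_comm])
  have h := hc R Γ (I × W) Γ D.fs B γ
  have hB : ∀ u v, B u v = τ (j y * a * j u) • v := fun u v => rfl
  simp only [hB] at h
  rw [Fintype.sum_prod_type, Fintype.sum_prod_type] at h
  rw [EL_apply, EL_apply, Finset.sum_mul]
  have h1 : ∀ k w, τ (j y * (a * j γ) * j (D.cf k * D.om w)) • (D.om w⁻¹ * D.cf' k) =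
      τ (j y * a * j (γ * D.fs.b (k, w))) • D.fs.b' (k, w) := by
    intro k w
    change _ = τ (j y * a * j (γ * (D.cf k * D.om w))) • (D.om w⁻¹ * D.cf' k)
    rw [map_mul j γ]
    simp only [mul_assoc]
  rw [Finset.sum_congr rfl fun k _ => Finset.sum_congr rfl fun w _ => h1 k w, h]
  refine Finset.sum_congr rfl fun k _ => ?_
  rw [Finset.sum_mul]
  refine Finset.sum_congr rfl fun w _ => ?_
  rw [smul_mul_assoc]
  rfl

/-- equivariance -/
theorem EL_e (D : WFS R Γ W I) (j : Γ →ₐ[R] A) (τ τ' : A →ₗ[R] R) (u : W)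
    (h : ∀ a, τ (j (D.om u) * a * j (D.om u⁻¹)) = τ' a) (a : A) (y : Γ) :
    D.om u * EL D j τ' a y = EL D j τ a (D.om u * y) := by
  rw [EL_apply, EL_apply, Finset.mul_sum]
  refine Finset.sum_congr rfl fun k _ => ?_
  rw [Finset.mul_sum]
  refine Fintype.sum_equiv (Equiv.mulRight u⁻¹) _ _ fun w => ?_
  have e1 : τ' (j y * a * j (D.cf k * D.om w)) =
      τ (j (D.om u * y) * a * j (D.cf k * D.om (w * u⁻¹))) := by
    rw [← h]
    congr 1
    simp only [map_mul, mul_assoc]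
  have e2 : D.om u * (D.om w⁻¹ * D.cf' k) = D.om (w * u⁻¹)⁻¹ * D.cf' k := by
    rw [mul_inv_rev, inv_inv, map_mul, mul_assoc]
  change D.om u * (τ' (j y * a * j (D.cf k * D.om w)) • (D.om w⁻¹ * D.cf' k)) =
    τ (j (D.om u * y) * a * j (D.cf k * D.om (w * u⁻¹))) • (D.om (w * u⁻¹)⁻¹ * D.cf' k)
  rw [mul_smul_comm, e1, e2]

variable [Fintype Ω] [MulAction W Ω]

/-- SPX -/
theorem spx (hI : InmStmt) (hc : Pool.Agent.PFC.B1.CasStmt) : SpxStmt := by
  intro R Γ W I A Ω _ _ _ _ _ _ _ _ _ _ D BX hX j pr h1 h2 h3 w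
  obtain ⟨p, ⟨hp1, hp2⟩, hp3, -⟩ := hI R Γ W I Ω A D BX hX (bim j) w.m (by
    intro u ω
    rw [w.m1, bim_rm, bim_lm, mul_assoc])
  let i : A →ₗ[R] (I × Ω → Γ) :=
    { toFun := fun a x => EL D j (w.τ x.2) a (D.cf' x.1)
      map_add' := fun a b => by
        funext x
        simp only [Pi.add_apply, EL_apply, mul_add, add_mul, map_add, add_smul,
          Finset.sum_add_distrib]
      map_smul' := fun c a => by
        funext x
        simp only [Pi.smul_apply, EL_apply, mul_smul_comm, smul_mul_assoc, map_smul, smul_eq_mul,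
          mul_smul, RingHom.id_apply, ← Finset.smul_sum] }
  have hi : ∀ a x, i a x = EL D j (w.τ x.2) a (D.cf' x.1) := fun a x => rfl
  refine ⟨⟨j, pr, h1, h2, h3, i, ?_, ?_, p, ?_, ?_, ?_⟩, rfl, rfl⟩
  · intro γ a
    funext x
    obtain ⟨l, ω⟩ := x
    rw [hi, EL_l, hX.1]
    have h4 : ∑ i, ∑ u, D.lam (D.om u⁻¹ * D.cf' l * γ * D.cf i) • (D.om u * D.cf' i) =
        D.cf' l * γ := by
      rw [← D.h2 (D.cf' l * γ)]
      refine Finset.sum_congr rfl fun i _ => ?_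
      refine Fintype.sum_equiv (Equiv.inv W) _ _ fun u => ?_
      rw [Equiv.inv_apply, inv_inv]
      congr 1
      rw [mul_assoc (D.om u⁻¹), mul_assoc (D.om u⁻¹), D.sym, mul_assoc]
    rw [← h4, map_sum]
    refine Finset.sum_congr rfl fun i' _ => ?_
    rw [map_sum]
    refine Finset.sum_congr rfl fun u _ => ?_
    rw [map_smul, hi]
    congr 1
    refine (EL_e D j (w.τ ω) (w.τ (u⁻¹ • ω)) u (fun a => ?_) a (D.cf' i')).symm
    have h5 := w.t1 u (u⁻¹ • ω) a
    rw [smul_inv_smul] at h5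
    exact h5
  · intro γ a
    funext x
    rw [hi, EL_r hc, hX.2, hi]
  · intro γ x
    rw [hp1, bim_lm]
  · intro γ x
    rw [hp2, bim_rm]
  · intro a
    rw [hp3, ← w.id a]
    refine Finset.sum_congr rfl fun i' _ => ?_
    have h6 : ∀ ω, (bim j).lm (D.cf i') ((bim j).rm (op (i a (i', ω))) (w.m ω)) =
        ∑ k, ∑ u, w.τ ω (j (D.cf' i') * a * j (D.cf k * D.om u)) •
          (j (D.cf i') * w.m ω * j (D.om u⁻¹ * D.cf' k)) := by
      intro ω
      rw [bim_rm, bim_lm, hi, EL_apply]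
      simp only [map_sum, map_smul, Finset.mul_sum, mul_smul_comm, mul_assoc]
    rw [Finset.sum_congr rfl fun ω _ => h6 ω, Finset.sum_comm]
    refine Finset.sum_congr rfl fun k _ => ?_
    rw [Finset.sum_comm]

end

end Pool.Agent.PFD.D2b.H29
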